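import Pool.Agent.W300.FT.Stm
set_option autoImplicit false
open MeasureTheory

namespace Pool.Agent.W35.FT

theorem psi_map {E : Type} (ν : Measure Bool) [IsProbabilityMeasure ν] (K : Set E)
    [DecidablePred (· ∈ K)] :
    Measure.map (fun p : (E → Bool) × (E → Bool) => fun e => if e ∈ K then p.2 e else p.1 e)
      ((Measure.infinitePi fun _ : E => ν).prod (Measure.infinitePi fun _ : E => ν)) =
      Measure.infinitePi fun _ : E => ν := by
  classical
  have hm : Measurable (fun p : (E → Bool) × (E → Bool) => fun e => if e ∈ K then p.2 e else p.1 e) := by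
    rw [measurable_pi_iff]
    intro e
    by_cases he : e ∈ K
    · simp only [if_pos he]
      exact (measurable_pi_apply e).comp measurable_snd
    · simp only [if_neg he]
      exact (measurable_pi_apply e).comp measurable_fst
  apply Measure.eq_infinitePi
  intro s t ht
  rw [Measure.map_apply hm (MeasurableSet.pi (Finset.countable_toSet s) fun i _ => ht i)]
  have h1 : (fun p : (E → Bool) × (E → Bool) => fun e => if e ∈ K then p.2 e else p.1 e) ⁻¹'
      (Set.pi (s : Set E) t) =
      (Set.pi ((s.filter fun e => e ∉ K : Finset E) : Set E) t) ×ˢ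
        (Set.pi ((s.filter fun e => e ∈ K : Finset E) : Set E) t) := by
    ext p
    simp only [Set.mem_preimage, Set.mem_pi, Finset.mem_coe, Set.mem_prod, Finset.mem_filter]
    constructor
    · intro h
      refine ⟨fun e he => ?_, fun e he => ?_⟩
      · have := h e he.1
        rwa [if_neg he.2] at this
      · have := h e he.1
        rwa [if_pos he.2] at this
    · rintro ⟨h2, h3⟩ e he
      by_cases hK : e ∈ K
      · rw [if_pos hK]
        exact h3 e ⟨he, hK⟩
      · rw [if_neg hK]
        exact h2 e ⟨he, hK⟩
  rw [h1, Measure.prod_prod, Measure.infinitePi_pi _ (fun i _ => ht i),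
    Measure.infinitePi_pi _ (fun i _ => ht i), mul_comm]
  exact Finset.prod_filter_mul_prod_filter_not s (fun e => e ∈ K) (fun e => ν (t e))

theorem shear_gen {E : Type} (ν : Measure Bool) [IsProbabilityMeasure ν]
    (hν : ∀ c : Bool, Measure.map (fun x => xor x c) ν = ν) (K : Set E) [DecidablePred (· ∈ K)]
    (f : (E → Bool) → E → Bool) (hf : Measurable f)
    (hdep : ∀ w w', (∀ e, e ∉ K → w e = w' e) → ∀ e ∈ K, f w e = f w' e) :
    MeasurePreserving (fun w e => if e ∈ K then xor (w e) (f w e) else w e)
      (Measure.infinitePi fun _ : E => ν) (Measure.infinitePi fun _ : E => ν) := by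
  have hxor : Measurable (fun p : Bool × Bool => xor p.1 p.2) := measurable_of_countable _
  have hm : Measurable (fun (w : E → Bool) e => if e ∈ K then xor (w e) (f w e) else w e) := by
    rw [measurable_pi_iff]
    intro e
    by_cases he : e ∈ K
    · simp only [if_pos he]
      exact hxor.comp ((measurable_pi_apply e).prodMk ((measurable_pi_apply e).comp hf))
    · simp only [if_neg he]
      exact measurable_pi_apply e
  have hΨ : Measurable (fun p : (E → Bool) × (E → Bool) => fun e => if e ∈ K then p.2 e else p.1 e) := by
    rw [measurable_pi_iff]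
    intro e
    by_cases he : e ∈ K
    · simp only [if_pos he]
      exact (measurable_pi_apply e).comp measurable_snd
    · simp only [if_neg he]
      exact (measurable_pi_apply e).comp measurable_fst
  have hg : Measurable (Function.uncurry fun (w u : E → Bool) => fun e => xor (u e) (f w e)) := by
    rw [measurable_pi_iff]
    intro e
    have h1 : Measurable fun p : (E → Bool) × (E → Bool) => p.2 e :=
      (measurable_pi_apply e).comp measurable_snd
    have h2 : Measurable fun p : (E → Bool) × (E → Bool) => f p.1 e :=
      ((measurable_pi_apply e).comp hf).comp measurable_fst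
    exact hxor.comp (h1.prodMk h2)
  have hsk : MeasurePreserving (fun p : (E → Bool) × (E → Bool) =>
      (id p.1, (fun (w u : E → Bool) => fun e => xor (u e) (f w e)) p.1 p.2))
      ((Measure.infinitePi fun _ : E => ν).prod (Measure.infinitePi fun _ : E => ν))
      ((Measure.infinitePi fun _ : E => ν).prod (Measure.infinitePi fun _ : E => ν)) := by
    apply MeasurePreserving.skew_product (MeasurePreserving.id _) hg
    apply Filter.Eventually.of_forall
    intro w
    have h1 := Measure.infinitePi_map_pi (μ := fun _ : E => ν) (f := fun e x => xor x (f w e))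
      (fun e => measurable_of_countable _)
    simp only [hν] at h1
    exact h1
  refine ⟨hm, ?_⟩
  conv_lhs => rw [← psi_map ν K]
  rw [Measure.map_map hm hΨ]
  have hcomp : ((fun (w : E → Bool) e => if e ∈ K then xor (w e) (f w e) else w e) ∘
      fun p : (E → Bool) × (E → Bool) => fun e => if e ∈ K then p.2 e else p.1 e) =
      (fun p : (E → Bool) × (E → Bool) => fun e => if e ∈ K then p.2 e else p.1 e) ∘
      (fun p : (E → Bool) × (E → Bool) =>
        (id p.1, (fun (w u : E → Bool) => fun e => xor (u e) (f w e)) p.1 p.2)) := by
    funext p e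
    show (if e ∈ K then xor (if e ∈ K then p.2 e else p.1 e)
      (f (fun e => if e ∈ K then p.2 e else p.1 e) e) else (if e ∈ K then p.2 e else p.1 e)) =
      if e ∈ K then xor (p.2 e) (f p.1 e) else p.1 e
    by_cases he : e ∈ K
    · rw [if_pos he, if_pos he, if_pos he]
      rw [hdep (fun e => if e ∈ K then p.2 e else p.1 e) p.1 (fun e he => if_neg he) e he]
    · rw [if_neg he, if_neg he, if_neg he]
  rw [hcomp, ← Measure.map_map hΨ hsk.measurable, hsk.map_eq, psi_map]

theorem coin_prob : IsProbabilityMeasure Pool.Agent.W300.FT.coin := by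
  constructor
  unfold Pool.Agent.W300.FT.coin
  rw [Measure.add_apply, Measure.smul_apply, Measure.smul_apply, measure_univ, measure_univ,
    smul_eq_mul, mul_one]
  exact ENNReal.add_halves 1

theorem coin_xor (c : Bool) :
    Measure.map (fun x => xor x c) Pool.Agent.W300.FT.coin = Pool.Agent.W300.FT.coin := by
  have hm : Measurable (fun x : Bool => xor x c) := measurable_of_countable _
  have hd : ∀ b : Bool, Measure.map (fun x => xor x c) (Measure.dirac b) =
      Measure.dirac (xor b c) := by
    intro b
    exact Measure.map_dirac' hm b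
  unfold Pool.Agent.W300.FT.coin
  rw [Measure.map_add _ _ hm, Measure.map_smul, Measure.map_smul, hd, hd]
  cases c
  · rfl
  · exact add_comm _ _

theorem shear : Pool.Agent.W300.FT.S_SHEAR := by
  classical
  intro E K1 f _ h1 h2 hf
  have := coin_prob
  have h3 := shear_gen Pool.Agent.W300.FT.coin coin_xor K1 f hf
    (fun w w' h e _ => by rw [h2 w w' h])
  have h4 : (fun (ω : E → Bool) e => xor (ω e) (f ω e)) =
      fun (w : E → Bool) e => if e ∈ K1 then xor (w e) (f w e) else w e := by
    funext ω e
    by_cases he : e ∈ K1
    · rw [if_pos he]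
    · rw [if_neg he, h1 ω e he, Bool.xor_false]
  rw [h4]
  exact h3

end Pool.Agent.W35.FT
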